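import Pool.Agent.Helper3.EL.Defs
import Pool.Agent.Helper90.TL.Avoid

/-!
# Project EL (MP_56afde): the symbols of `T₃` (module EL-G)
-/

set_option autoImplicit false

namespace Pool.Agent.Helper3.EL

open Finset Pool.Agent.Lead.TB Pool.Agent.Lead.TB.Halves Pool.Agent.Helper84.TL

/-- EL-G: the symbols of `T₃`, for a set `E` of Latin squares with the empty box. -/
theorem gibbs_T' {n : ℕ} (E : Finset (Fin n → Equiv.Perm (Fin n))) (T₁ T₂ T₃ Y : Finset (Fin n))
    (hE : E ⊆ emp T₁ T₂ T₃) (hd : Disjoint T₃ Y) (hc : T₃.card ≤ Y.card) (hY : 1 ≤ Y.card) :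
    ∑ L ∈ E, Real.log ((E ∩ cls L (T₃ ∪ Y)).card : ℝ) ≤
      ∑ L ∈ E, (n * ∑ j ∈ Icc (Y.card + 1) (T₃.card + Y.card), Real.log (g j) -
        Real.log 2 * T₃.card / (T₃.card + Y.card : ℕ) * cnt L T₁ T₂ Y +
        Real.log ((E ∩ cls L Y).card : ℝ)) := by
  classical
  have hEe : ∀ L ∈ E, L ∈ emp T₁ T₂ T₃ := fun L hL => hE hL
  have hEls : ∀ L ∈ E, L ∈ ls n := fun L hL => (Avd.mem_emp.mp (hEe L hL)).1
  set V : (Fin n → Equiv.Perm (Fin n)) → ℝ := fun L =>
    n * ∑ j ∈ Icc (Y.card + 1) (T₃.card + Y.card), Real.log (g j) -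
        Real.log 2 * T₃.card / (T₃.card + Y.card : ℕ) * cnt L T₁ T₂ Y with hV
  have hself : ∀ L ∈ E, ∀ Z : Finset (Fin n), L ∈ cls L Z := fun L hL Z =>
    Avd.mem_cls.mpr ⟨hEls L hL, fun _ _ => rfl⟩
  have hpos : ∀ L ∈ E, (0 : ℝ) < ((E ∩ cls L Y).card : ℝ) := by
    intro L hL
    exact_mod_cast Finset.card_pos.mpr ⟨L, mem_inter.mpr ⟨hL, hself L hL Y⟩⟩
  have h1 := Avd.gibbs E (fun L L' => L' ∈ cls L (T₃ ∪ Y))
    (fun L hL L' hL' h => by
      rw [Avd.mem_cls] at h ⊢
      exact ⟨hEls L hL, fun s hs => (h.2 s hs).symm⟩)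
    (fun L hL => hself L hL _)
    (fun L => Real.exp (-(V L)) / ((E ∩ cls L Y).card : ℝ))
    (fun L hL => div_pos (Real.exp_pos _) (hpos L hL)) ?_
  · have h2 : ∀ L ∈ E, Real.log ((E.filter fun L' => L' ∈ cls L (T₃ ∪ Y)).card : ℝ) +
        Real.log (Real.exp (-(V L)) / ((E ∩ cls L Y).card : ℝ)) =
        Real.log ((E ∩ cls L (T₃ ∪ Y)).card) - (V L + Real.log (E ∩ cls L Y).card) := by
      intro L hL
      rw [Real.log_div (Real.exp_pos _).ne' (hpos L hL).ne', Real.log_exp, Finset.filter_mem_eq_inter]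
      ring
    rw [Finset.sum_congr rfl h2, Finset.sum_sub_distrib] at h1
    linarith
  · intro L' hL'
    -- the class
    set C := E.filter (fun L => L ∈ cls L' (T₃ ∪ Y)) with hC
    have hL'ls := hEls L' hL'
    have hC1 : ∀ L ∈ C, L ∈ E ∧ L ∈ cls L' (T₃ ∪ Y) := fun L hL => by
      rw [hC, mem_filter] at hL
      exact hL
    have hsgc : ∀ L ∈ C, sg L (T₃ ∪ Y) = sg L' (T₃ ∪ Y) := fun L hL =>
      Avd.sg_cls hL'ls (hC1 L hL).2
    have hcnt : ∀ L ∈ E, cnt L T₁ T₂ Y = ∑ r, (Avd.boxF L T₁ T₂ (T₃ ∪ Y) r).card := by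
      intro L hL
      rw [Avd.sum_boxF (hEls L hL), Avd.cnt_union L hd, (Avd.mem_emp.mp (hEe L hL)).2, zero_add]
    have hVc : ∀ L ∈ C, V L = V L' := by
      intro L hL
      have h3 : cnt L T₁ T₂ Y = cnt L' T₁ T₂ Y := by
        rw [hcnt L (hC1 L hL).1, hcnt L' hL']
        refine Finset.sum_congr rfl fun r _ => ?_
        unfold Avd.boxF
        rw [hsgc L hL]
      simp only [hV, h3]
    -- the restriction to the symbols of `T₃`
    let e : Fin T₃.card ≃ T₃ := T₃.equivFin.symm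
    let ρ : (Fin n → Equiv.Perm (Fin n)) → (Fin T₃.card → Equiv.Perm (Fin n)) :=
      fun L i => L (e i)
    have hρ : ∀ L M : Fin n → Equiv.Perm (Fin n), ρ L = ρ M ↔ ∀ s ∈ T₃, L s = M s := by
      intro L M
      constructor
      · intro h s hs
        have h3 := congrFun h (e.symm ⟨s, hs⟩)
        simp only [ρ, Equiv.apply_symm_apply] at h3
        exact h3
      · intro h
        funext i
        exact h _ (e i).2
    have hfib : ∀ L ∈ C, (E ∩ cls L Y).card = (C.filter fun M => ρ M = ρ L).card := by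
      intro L hL
      congr 1
      ext M
      have hL2 := Avd.mem_cls.mp (hC1 L hL).2
      rw [mem_filter, hC, mem_filter, mem_inter, Avd.mem_cls, Avd.mem_cls, hρ]
      constructor
      · rintro ⟨hME, hM, h⟩
        have h3 : ∀ s ∈ T₃, M s = L s := fun s hs => h s (Finset.disjoint_left.mp hd hs)
        refine ⟨⟨hME, hM, fun s hs => ?_⟩, h3⟩
        rw [h s (fun h5 => hs (mem_union_right _ h5)), hL2.2 s hs]
      · rintro ⟨⟨hME, hM, h4⟩, h3⟩
        refine ⟨hME, hM, fun s hs => ?_⟩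
        by_cases h5 : s ∈ T₃
        · exact h3 s h5
        · have h6 : s ∉ T₃ ∪ Y := by
            rw [mem_union]
            tauto
          rw [h4 s h6, hL2.2 s h6]
    have h3 := Avd.fibre_sum C ρ (fun L => (E ∩ cls L Y).card) hfib
    have h4 : ∑ L ∈ C, Real.exp (-(V L)) / ((E ∩ cls L Y).card : ℝ) =
        Real.exp (-(V L')) * ((C.image ρ).card : ℝ) := by
      rw [← h3, Finset.mul_sum]
      refine Finset.sum_congr rfl fun L hL => ?_
      rw [hVc L hL]
      ring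
    rw [h4]
    -- the restrictions avoid the box
    have h5 : C.image ρ ⊆ av (Fin T₃.card) univ (sg L' (T₃ ∪ Y)) (Avd.boxF L' T₁ T₂ (T₃ ∪ Y)) := by
      intro τ hτ
      obtain ⟨L, hL, rfl⟩ := mem_image.mp hτ
      have hLE := (hC1 L hL).1
      simp only [av, fac, mem_filter, mem_univ, true_and]
      refine ⟨⟨fun i r => ?_, fun i j hij r => ?_⟩, fun i _ r => ?_⟩
      · rw [← hsgc L hL]
        unfold sg
        exact mem_image.mpr ⟨e i, mem_union_left _ (e i).2, rfl⟩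
      · refine Avd.mem_ls.mp (hEls L hLE) _ _ (fun h => hij ?_) r
        exact e.injective (Subtype.ext h)
      · unfold Avd.boxF
        split_ifs with hr
        · intro h6
          have h7 : L (e i) r ∈ T₂ := (mem_inter.mp h6).2
          have h8 := (Avd.mem_emp.mp (hEe L hLE)).2
          unfold cnt at h8
          rw [Finset.sum_eq_zero_iff] at h8
          have h9 := h8 _ (e i).2
          rw [Finset.card_eq_zero] at h9
          have h10 : r ∈ (T₁.filter fun r => L (e i) r ∈ T₂) := mem_filter.mpr ⟨hr, h7⟩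
          rw [h9] at h10
          simp at h10
        · simp
    have h6 : ((C.image ρ).card : ℝ) ≤
        ((av (Fin T₃.card) univ (sg L' (T₃ ∪ Y)) (Avd.boxF L' T₁ T₂ (T₃ ∪ Y))).card : ℝ) := by
      exact_mod_cast Finset.card_le_card h5
    have h7 : (T₃ ∪ Y).card = T₃.card + Y.card := Finset.card_union_of_disjoint hd
    have h8 := upper_av (c := T₃.card) (D := T₃.card + Y.card) (by omega) (by omega)
      (sg L' (T₃ ∪ Y)) (Avd.boxF L' T₁ T₂ (T₃ ∪ Y)) (h7 ▸ Avd.reg_sg hL'ls (T₃ ∪ Y))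
      (fun r => by
        unfold Avd.boxF
        split_ifs
        · exact inter_subset_left
        · simp)
    have h9 : T₃.card + Y.card - T₃.card + 1 = Y.card + 1 := by omega
    have h10 : ∑ r, ((Avd.boxF L' T₁ T₂ (T₃ ∪ Y) r).card : ℝ) = (cnt L' T₁ T₂ Y : ℝ) := by
      rw [hcnt L' hL']
      push_cast
      rfl
    rw [h9, h10] at h8
    have h11 : Real.exp (V L') = Real.exp (n * ∑ j ∈ Icc (Y.card + 1) (T₃.card + Y.card),
        Real.log (g j) - Real.log 2 * T₃.card / (T₃.card + Y.card : ℕ) * cnt L' T₁ T₂ Y) := rfl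
    rw [← h11] at h8
    calc Real.exp (-(V L')) * ((C.image ρ).card : ℝ) ≤ Real.exp (-(V L')) * Real.exp (V L') :=
          mul_le_mul_of_nonneg_left (h6.trans h8) (Real.exp_pos _).le
      _ = 1 := by rw [← Real.exp_add, neg_add_cancel, Real.exp_zero]

end Pool.Agent.Helper3.EL
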